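import Pool.Agent.H48.AB.Im
import Pool.Agent.H84.AB.Nu
import Pool.Agent.H84.AB.Crit
import Pool.Agent.H84.AB.Curve

/-!
# Abundance for varieties which are dominated by products over an orbifold base

Let `X` be a projective manifold of dimension `n`, `X ⇢ Y` a dominant rational map to a variety `Y`
of dimension `w0`, and `Z ⇢ X` a dominant rational map of finite degree from a variety `Z` with a
generically finite rational map to `Y × W 1 × ... × W r`, where the maps from `Z` to `Y` are the same.
Nothing else is assumed about `X`; the map `Z ⇢ X` need not be a quotient by a group, and the fibres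
of `X ⇢ Y` may have moduli (if `Z` is not birational to the product).

* The factors `W i`, of dimension `w i`, are projective manifolds the canonical forms of which
  separate generic points and tangent vectors of total length at most `p i + 1` (`JetAmple`), for
  instance curves of gonality `p i + 2`; for `p i = 0` this means that the geometric genus is positive.
* For a general point `x` of `X` let `r_i` be the number of the different `i`-th coordinates of the
  points of `Z` over `x`, and for a set `Q` of indices let `r(Q)` be the number of the points over `x`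
  which have the same coordinates outside `Q` as a given one. It is assumed that `2 r_i ≤ p i + 1` for
  all `i` in some set `B` (which may be empty), and `r(Q) = 1` or `2 r(Q) - 1 ≤ ∑ j ∈ Q, p j` for all
  `Q` disjoint from `B`.
* On the base an ORBIFOLD KODAIRA DIMENSION is used: there are rational `m`-canonical forms
  `g l (dy_1 ∧ ... ∧ dy_{w0}) ^ m` on `Y`, `l ≤ h0`, whose PULL-BACKS TO `X` are regular, and whose
  ratios are algebraically independent. So `Y` itself may be rational, if the map `X ⇢ Y` has
  sufficiently many multiple fibres; for regular `m`-canonical forms on `Y` the condition is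
  satisfied (the second part of the theorem), and the geometric genus of `Y` may be `0`.

The theorem: the image of the `m`-canonical map of `X` has dimension at least `h0 + ∑ h i`, where
`h i = w i` if `p i ≥ 1`, and otherwise `h i` is the dimension of the canonical image of `W i`. If `Z`
is birational to a product `Y' × W 1 × ... × W r`, where `Y'` is any variety of dimension `w0` (for
instance `Y`, or a covering of `Y`), then `ν(X) ≤ ν(Y') + ∑ ν(W i)`. Hence abundance, `κ(X) = ν(X)`,
passes from the base and the factors to `X`: it holds if `h0 = ν(Y')` and `h i = ν(W i)` for all `i`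
(for instance curves, abelian varieties, Calabi-Yau manifolds, holomorphic symplectic manifolds,
manifolds with generically finite canonical map). By a theorem of Kawamata the canonical divisor of
every minimal variety birational to such an `X` is semiample. If `h0 = w0` and `h i = w i` for all `i`
then `X` is of general type, for every `Z`.

For `w0 = 0` (`Y` a point) this is the theorem on varieties dominated by products of the library
(`MP_c2a5fc_ag.DominatedByProducts`).

Proof. Let `u = (u_1, ..., u_{w0})` be coordinates of `Y`. For canonical forms `f i` of the factors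
let `G_f` be the trace to `X` of `du_1 ∧ ... ∧ du_{w0} ∧ f 1 ∧ ... ∧ f r`. Then
`g l * G_{f¹} * ... * G_{f^m}` is an `m`-canonical form on `X`. It is regular at a prime divisor `P`:
let `δ` be a maximal minor of least order of the matrix of the partial derivatives of the `u c` with
respect to local coordinates; then `g l δ ^ m` is regular, because the pull-back of the form on `Y`
is regular, and `G_f = δ t` where `t` is the trace of an exterior product of regular `1`-forms and of
the `f i`, hence regular. If a vector field of `X` kills the ratios of the `g l` and of the `G_f`,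
then it kills `h0` independent functions of `Y`, and by the argument with Hall's theorem its
components along the factors are as in the theorem on products.
-/

set_option autoImplicit false
set_option linter.overlappingInstances false

open FF IntermediateField Pool.Agent.W602.GT Pool.Agent.W619.PQ Pool.Agent.W619.TW

namespace Pool.Agent.Results.MP_5ff3c6_ag.DominatedOverOrbifoldBases

/-- `ω` is a regular canonical form on the projective manifolds of dimension `w` with the function
field `F`: it is multiplied by `det A` under a linear substitution `A` of the `w` rational vector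
fields, and it is regular along all prime divisors over the manifold. -/
def CanForm (F : Type) [Field F] [Algebra ℂ F] (w : ℕ) (ω : (Fin w → Derivation ℂ F F) → F) :
    Prop :=
  IsPluri 1 ω ∧ ∀ P : Place ℂ F, Divisorial w P → RegAt P ω

/-- The canonical forms of the manifolds `W` of dimension `w` with the function field `F` separate
generic points and tangent vectors of total length at most `p + 1`: for some coordinates `y` of `W`
with the dual vector fields `E`, and for every finite set `Φ` of generic points of `W` with values in
an extension field `Ω` of `ℂ` (that is, embeddings `φ` of `F` in `Ω`), the functionals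
`ω ↦ φ (ω E)` (values) and `ω ↦ ∑ v a * φ (E a (ω E))` (derivatives in a direction `v`, at most one
direction for each point) satisfy no linear relation if the number of the points plus the number of
the points at which a direction is used is at most `p + 1`. -/
def JetAmple (F : Type) [Field F] [Algebra ℂ F] (w p : ℕ) : Prop :=
  ∃ (y : Fin w → F) (E : Fin w → Derivation ℂ F F), IsTranscendenceBasis ℂ y ∧
    (∀ i j, E i (y j) = if i = j then 1 else 0) ∧
    ∀ (Ω : Type) [Field Ω] [Algebra ℂ Ω] (Φ : Finset (F →ₐ[ℂ] Ω)) (c : (F →ₐ[ℂ] Ω) → Ω)
      (v : (F →ₐ[ℂ] Ω) → Fin w → Ω) (S : Finset (F →ₐ[ℂ] Ω)), S ⊆ Φ → (∀ φ ∈ Φ, φ ∉ S → v φ = 0) →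
      Φ.card + S.card ≤ p + 1 →
      (∀ ω : (Fin w → Derivation ℂ F F) → F, CanForm F w ω →
        ∑ φ ∈ Φ, (c φ * φ (ω E) + ∑ a, v φ a * φ (E a (ω E))) = 0) →
      ∀ φ ∈ Φ, c φ = 0 ∧ v φ = 0

/-- The image of the map given by the sections of `m K_X` has dimension at least `h`: there are
`h + 1` sections of `m K_X` whose ratios to the first one are algebraically independent. -/
def ImageGe (K : Type) [Field K] [Algebra ℂ K] (n m h : ℕ) : Prop :=
  ∃ ω : Fin (h + 1) → (Fin n → Derivation ℂ K K) → K,
    (∀ l, IsSec ℂ K n (fun _ => False) {1} m 0 (ω l)) ∧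
    ∃ D, (∀ l, ω l D ≠ 0) ∧ AlgebraicIndependent ℂ (fun l : Fin h => ω l.succ D / ω 0 D)

/-- `ν(X) ≤ h`, where `K` is the function field of `X`, `n = dim X`: for every divisor `A` (given by
a finite set of functions) there is a constant `C` with `h⁰(m K_X + A) ≤ C m ^ h` for `m ≥ 1`. -/
def NuLe (K : Type) [Field K] [Algebra ℂ K] (n h : ℕ) : Prop :=
  NumLe ℂ K n (fun _ => False) h

/-- The orbifold base. Let `L` be the function field of `X`, `dim X = n`, let the subfield `F0` be the
function field of the base `Y` of the rational map `X ⇢ Y`, and let `y0` be coordinates of `Y`. There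
are `h + 1` rational `m`-canonical forms `g l (dy_1 ∧ ... ∧ dy_{w0}) ^ m` on `Y` whose pull-backs to
`X` are regular along all prime divisors over `X` (their values
`g l * det (D i (y0 j)) ^ m` on vector fields `D` of `X` which are regular along the divisor are
regular), such that the ratios of the `g l` to `g 0 ≠ 0` are algebraically independent. -/
def BaseImageGe (L : Type) [Field L] [Algebra ℂ L] (F0 : IntermediateField ℂ L) {w0 : ℕ}
    (y0 : Fin w0 → F0) (n m h : ℕ) : Prop :=
  ∃ g : Fin (h + 1) → F0, g 0 ≠ 0 ∧ AlgebraicIndependent ℂ (fun l : Fin h => g l.succ / g 0) ∧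
    ∀ l, ∀ P : Place ℂ L, Divisorial n P →
      RegAt P (fun D : Fin w0 → Derivation ℂ L L =>
        (g l : L) * (Matrix.of fun i j => D i (y0 j : L)).det ^ m)

section

variable (L : Type) {M : Type} [Field L] [Field M] [Algebra ℂ L] [Algebra ℂ M] [Algebra L M]

/-- The number of different `W`-coordinates on a general fibre of `Z ⇢ X`, where `F` is the function
field of the factor `W`: the degree over `X` of the image of `Z` in `X × W`. -/
noncomputable def coordinates (F : IntermediateField ℂ M) : ℕ :=
  Module.finrank L (IntermediateField.adjoin L (F : Set M))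

/-- The number of the points of a general fibre of `Z ⇢ X` with the same coordinates outside `Q` as a
given one: the degree of `Z` over its image in `X × ∏ j ∉ Q, W j`. -/
noncomputable def agreeing {r : ℕ} (F : Fin r → IntermediateField ℂ M) (Q : Finset (Fin r)) : ℕ :=
  Module.finrank (IntermediateField.adjoin L {z : M | ∃ j, j ∉ Q ∧ z ∈ F j}) M

end

/-- **Abundance for varieties dominated by products over an orbifold base.** The first part: let `L`
be the function field of a projective manifold `X` of dimension `n`, `F0 ⊆ L` the function field of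
the base `Y` of a rational map `X ⇢ Y`, with coordinates `y0`, `F i` (`i < r`) the function fields of
projective manifolds `W i` of dimensions `w i`, `dim Y + ∑ w i = n`, whose canonical forms separate
generic points and tangent vectors of length at most `p i + 1`, `M` the function field of a variety
`Z` of dimension `n` with a dominant rational map of finite degree to `X` and a generically finite
rational map to `Y × ∏ W i` (over `Y`). Let `B` be a set of indices such that twice the number of the
`i`-th coordinates on a general fibre of `Z ⇢ X` is at most `p i + 1` for `i ∈ B`, and let for every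
set `Q` of indices disjoint from `B` the number `r(Q)` of the points of a general fibre with the same
coordinates outside `Q` as a given one satisfy `r(Q) = 1` or `2 r(Q) - 1 ≤ ∑ j ∈ Q, p j`.

Let `m ≥ 1` and let the `m`-canonical forms of `Y` with regular pull-backs to `X` have an image of
dimension at least `h0`; let `h i` be the dimension of `W i` if `p i ≥ 1`, or (for arbitrary `i`) at
most the dimension of the canonical image of `W i`. Then the `m`-canonical image of `X` has dimension
at least `h0 + ∑ h i`. If `M` is generated by the `F i` and by the function field `M0` of a variety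
`Y'` of dimension `dim Y`, then `ν(X) ≤ ν(Y') + ∑ ν(W i)`. So `κ(X) = ν(X)` if `h0 = ν(Y')` and
`h i = ν(W i)`.

The second part: pull-backs of regular `m`-canonical forms of `Y` are regular, so that `h0` may be
the dimension of the `m`-canonical image of `Y`.

The third part: if the canonical forms of `W` contain the forms `A(x) ω` for a nonzero `ω`, for
generators `x` of the function field of `W` and for all polynomials `A` of degree at most `m`, they
separate generic points and tangent vectors of length at most `m + 1`. The fourth part: the same is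
true for curves of gonality at least `γ ≥ 2`, with `m = γ - 2`. -/
theorem result :
    (∀ (L M : Type) [Field L] [Field M] [Algebra ℂ L] [Algebra ℂ M] [Algebra L M]
      [IsScalarTower ℂ L M] [FiniteDimensional L M] [Algebra.EssFiniteType ℂ L] (r n w0 : ℕ)
      (_ : 0 < r) (_ : Algebra.trdeg ℂ M = n) (F0 : IntermediateField ℂ L) (y0 : Fin w0 → F0)
      (_ : IsTranscendenceBasis ℂ y0) (F : Fin r → IntermediateField ℂ M)
      (_ : ∀ i, Algebra.EssFiniteType ℂ (F i))
      (_ : Algebra.IsAlgebraic
        ↥(F0.map (IsScalarTower.toAlgHom ℂ L M) ⊔ ⨆ i, F i : IntermediateField ℂ M) M)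
      (w : Fin r → ℕ) (_ : ∀ i, Algebra.trdeg ℂ (F i) = w i) (_ : w0 + ∑ i, w i = n)
      (p : Fin r → ℕ) (_ : ∀ i, JetAmple (F i) (w i) (p i))
      (B : Finset (Fin r)) (_ : ∀ i ∈ B, 2 * coordinates L (F i) ≤ p i + 1)
      (_ : ∀ Q : Finset (Fin r), Disjoint Q B →
        agreeing L F Q = 1 ∨ 2 * agreeing L F Q ≤ 1 + ∑ j ∈ Q, p j),
      (∀ (m h0 : ℕ) (h : Fin r → ℕ), 1 ≤ m → BaseImageGe L F0 y0 n m h0 →
        (∀ i, (1 ≤ p i ∧ h i = w i) ∨ ImageGe (F i) (w i) 1 (h i)) →
        ImageGe L n m (h0 + ∑ i, h i)) ∧
      (∀ M0 : IntermediateField ℂ M, Algebra.EssFiniteType ℂ M0 → Algebra.trdeg ℂ M0 = w0 →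
        M0 ⊔ ⨆ i, F i = ⊤ → ∀ (ν0 : ℕ) (ν : Fin r → ℕ), NuLe M0 w0 ν0 →
          (∀ i, NuLe (F i) (w i) (ν i)) → NuLe L n (ν0 + ∑ i, ν i))) ∧
    (∀ (L : Type) [Field L] [Algebra ℂ L] [Algebra.EssFiniteType ℂ L] (n w0 m h0 : ℕ)
      (_ : Algebra.trdeg ℂ L = n)
      (F0 : IntermediateField ℂ L) (_ : Algebra.EssFiniteType ℂ F0) (y0 : Fin w0 → F0)
      (_ : IsTranscendenceBasis ℂ y0), ImageGe F0 w0 m h0 → BaseImageGe L F0 y0 n m h0) ∧
    (∀ (F : Type) [Field F] [Algebra ℂ F] (w N m : ℕ) (_ : Algebra.trdeg ℂ F = w)
      (x : Fin N → F) (_ : IntermediateField.adjoin ℂ (Set.range x) = ⊤)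
      (ω : (Fin w → Derivation ℂ F F) → F) (D : Fin w → Derivation ℂ F F) (_ : ω D ≠ 0)
      (_ : ∀ A : MvPolynomial (Fin N) ℂ, A.totalDegree ≤ m →
        CanForm F w fun D => MvPolynomial.aeval x A * ω D), JetAmple F w m) ∧
    (∀ (F : Type) [Field F] [Algebra ℂ F] (_ : IsFF ℂ F) (γ : ℕ) (_ : 2 ≤ γ)
      (_ : ∀ b : F, Transcendental ℂ b → γ ≤ Module.finrank ℂ⟮b⟯ F), JetAmple F 1 (γ - 2)) := by
  refine ⟨?_, ?_, ?_, ?_⟩
  · intro L M _ _ _ _ _ _ _ _ r n w0 hr hM F0 y0 hy0 F hF halg w hw hsum p hJ B hB hQ
    refine ⟨fun m h0 h hm hbase hh => ?_, fun M0 hM0 hM0w hsup ν0 ν hν0 hν => ?_⟩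
    · obtain ⟨m', rfl⟩ : ∃ m', m = m' + 1 := ⟨m - 1, by omega⟩
      obtain ⟨g, hg0, hgi, hg⟩ := hbase
      exact Pool.Agent.H48.AB.image_rel F0 F hr hM y0 hy0 halg hw hsum hJ B hB hQ m' h0 g hg0 hgi
        (fun l P hP D hD => hg l P hP D hD) h hh
    · have hMM : NumLe ℂ M n (fun _ => False)
          (∑ i, (Fin.cons ν0 ν : Fin (r + 1) → ℕ) i) := by
        refine H84.AB.num_prod (r := r + 1) (w := Fin.cons w0 w)
          (Fin.cons M0 F : Fin (r + 1) → IntermediateField ℂ M)
          (hF := fun i => ?_) (Nat.succ_pos r) ?_ hM (fun i => ?_) ?_ (fun i => ?_)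
        · refine Fin.cases ?_ (fun i => ?_) i
          · exact hM0
          · exact hF i
        · rw [← hsup]
          apply le_antisymm
          · refine iSup_le fun i => ?_
            refine Fin.cases ?_ (fun i => ?_) i
            · exact le_sup_left
            · exact (le_iSup F i).trans le_sup_right
          · refine sup_le ?_ (iSup_le fun i => ?_)
            · exact le_iSup (Fin.cons M0 F : Fin (r + 1) → IntermediateField ℂ M) 0
            · exact le_iSup (Fin.cons M0 F : Fin (r + 1) → IntermediateField ℂ M) i.succ
        · refine Fin.cases ?_ (fun i => ?_) i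
          · exact hM0w
          · exact hw i
        · rw [Fin.sum_univ_succ]
          simpa using hsum
        · refine Fin.cases ?_ (fun i => ?_) i
          · exact hν0
          · exact hν i
      rw [Fin.sum_univ_succ] at hMM
      simp only [Fin.cons_zero, Fin.cons_succ] at hMM
      exact H84.AB.num_image (Q36.SD.trdeg_below (K := M) hM) hMM
  · intro L _ _ _ n w0 m h0 hn F0 hF0 y0 hy0 hI
    classical
    obtain ⟨ω, hω, D, hD0, hD⟩ := hI
    choose E hE using fun j : Fin w0 => Pool.Agent.W619.PQ.exists_dual y0 hy0 j
    have hE' : ∀ a b, E a (y0 b) = if a = b then 1 else 0 := by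
      intro a b
      rw [hE a b]
      by_cases hab : a = b
      · rw [if_pos hab, if_pos hab.symm]
      · rw [if_neg hab, if_neg (Ne.symm hab)]
    have hcan : ∀ l, IsPluri m (ω l) ∧ ∀ P : Place ℂ F0, Divisorial w0 P → RegAt P (ω l) := by
      intro l
      refine ⟨(hω l).1, fun P hP G hG => ?_⟩
      rcases (hω l).2.1 P hP (fun h => h) G hG with h1 | ⟨s, -, -, h1⟩
      · exact Or.inl h1
      · right
        simpa using h1
    have hcoord : ∀ l, ω l D = (Matrix.of fun i j => D i (y0 j)).det ^ m * ω l E := by
      intro l
      exact Pool.Agent.Y172.pluri_coord hy0 hE' (hcan l).1 D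
    have hdet : (Matrix.of fun i j => D i (y0 j)).det ^ m ≠ 0 := by
      intro h1
      have h2 := hD0 0
      rw [hcoord, h1, zero_mul] at h2
      exact h2 rfl
    refine ⟨fun l => ω l E, ?_, ?_, fun l P hP G hG => ?_⟩
    · intro h1
      have h1' : ω 0 E = 0 := h1
      have h2 := hD0 0
      rw [hcoord, h1', mul_zero] at h2
      exact h2 rfl
    · have h1 : (fun l : Fin h0 => ω l.succ D / ω 0 D) = fun l : Fin h0 => ω l.succ E / ω 0 E := by
        funext l
        rw [hcoord, hcoord, mul_div_mul_left _ _ hdet]
      rwa [h1] at hD
    · have hw0 : Algebra.trdeg ℂ F0 = w0 := by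
        rw [← hy0.cardinalMk_eq_trdeg]
        simp
      exact Pool.Agent.H48.AB.pull_base F0 hn hw0 hy0 hE' (hcan l).1 (hcan l).2 P hP G hG
  · intro F _ _ w N m hw x hx ω D hD hω
    exact H84.AB.jetAmple_of_poly hw hx hD hω
  · intro F _ _ hF γ hγ2 hγ
    exact H84.AB.jetAmple_curve hγ2 hγ

end Pool.Agent.Results.MP_5ff3c6_ag.DominatedOverOrbifoldBases
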