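import Pool.Agent.H96.QU.Geo
import Pool.Graph.R_seed8.R887.Exc

/-!
Commuting birational self-maps of entropy zero which preserve `K_X + Δ`: if the numerical dimension
of `K_X + Δ` is at least `dim X - 2` then the degrees grow at most like the fourth power; abundance
if they grow faster and the Kodaira dimension is at least `dim X - 3`.
-/

set_option autoImplicit false

open FF Pool.Agent.W602.GT Pool.Agent.Y172 Pool.Agent.R887 Pool.Agent.N110

/-- Let `X` be a normal projective variety of dimension `n ≥ 3` with generic point `y`, and `Δ` an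
effective `ℚ`-divisor on `X`. Let `ℤ ^ r` act by birational self-maps `f_v` of `X` (for instance
`r = 1`: the iterates of one map `f`), given by the automorphisms `φ v = f_v^*` of the function
field, which preserve `K_X + Δ` over the prime divisors of `X`, or let `Δ = 0` and let `X` have
canonical singularities (for example, let `X` be a minimal variety); then the maps are arbitrary.
Suppose that the first dynamical degree of every `f_v` is at most `1` (entropy zero).

If the numerical dimension of `K_X + Δ` is at least `n - 2`, then the degrees grow at most like the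
fourth power: `f_v^* H · H ^ (n - 1) ≤ A * (l + 1) ^ 4` for all `v` with coordinates of absolute
value at most `l`, with a constant `A` for all `l`.

So let there be no such constant (for instance, let the degrees of the iterates of a single map grow
faster). Then the numerical dimension of `K_X + Δ` is at most `n - 3`, and so is the Kodaira
dimension; if the Kodaira dimension is at least `n - 3` then the Kodaira dimension and the numerical
dimension of `K_X + Δ` are equal. -/
theorem Pool.Agent.Results.MP_5ff3c6_ag.QuarticGrowth.result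
    {K : Type} [Field K] [Algebra ℂ K] {N n : ℕ} {y : Fin (N + 1) → K} (hy : NormalModel y)
    (hn : Algebra.trdeg ℂ K = n) (hn3 : 3 ≤ n) {Δ : Place ℂ K → ℚ} (hΔ : Effective y Δ)
    {r : ℕ} {φ : (Fin r → ℤ) → (K ≃ₐ[ℂ] K)} (hφ : ∀ u v, φ (u + v) = φ u * φ v)
    (h : (∀ v, PullLe (φ v) y n Δ) ∨ (Δ = 0 ∧ Canonical y n))
    (hent : ∀ v, dynDegree (φ v) y n 1 ≤ 1) :
    (¬ NumDimLt y n Δ (n - 2) → ∃ A : ℝ, ∀ (l : ℕ) (v : Fin r → ℤ), (∀ i, |v i| ≤ l) →
      mixedDegree (φ v) y n 1 ≤ ENNReal.ofReal (A * (l + 1) ^ 4)) ∧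
    ((∀ A : ℝ, ∃ (l : ℕ) (v : Fin r → ℤ), (∀ i, |v i| ≤ l) ∧
      ENNReal.ofReal (A * (l + 1) ^ 4) < mixedDegree (φ v) y n 1) →
      NumDimLt y n Δ (n - 2) ∧ ¬ KappaGe y n Δ (n - 2) ∧
        (KappaGe y n Δ (n - 3) → Abundant y n Δ)) := by
  have hP : ∀ v, PullLe (φ v) y n Δ := by
    rcases h with h | ⟨rfl, hcan⟩
    · exact h
    · exact fun v => pullLe_canonical hy hn hcan (φ v)
  have h1 := fun hnum => Pool.Agent.H96.QU.quartic_growth hy hn hn3 hΔ.2 hφ hP hent hnum
  refine ⟨h1, fun h2 => ?_⟩
  have h3 : NumDimLt y n Δ (n - 2) := by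
    by_contra h3
    obtain ⟨A, hA⟩ := h1 h3
    obtain ⟨l, v, hv, hlt⟩ := h2 A
    exact absurd hlt (not_lt.2 (hA l v hv))
  refine ⟨h3, ?_, fun h4 => ⟨n - 3, h4, ?_⟩⟩
  · rintro ⟨m, hm, ω, E, hω, h0, hind⟩
    exact kappa_lt hy hn (Nat.sub_le _ _) h3 hm hω h0 hind
  · rwa [show n - 3 + 1 = n - 2 by omega]
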